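import Pool.Agent.H37.CNK.Stmts

/-!
Row DRH of board cnk: Hochschild's formula for a derivation `Δ` with `Δ ^ p = Δ`.
-/

set_option autoImplicit false

namespace Pool.CND

namespace DRH80

open Finset

/-- the correction term -/
def cw (n : ℕ) {L : Type} [Field L] (x y : L) : L :=
  ∑ j ∈ range n, (((n + 1).choose (j + 1) / (n + 1) : ℕ) : L) * (x ^ (j + 1) * y ^ (n - j))

theorem q1 (n j : ℕ) (hp : (n + 1).Prime) (hj : j < n) :
    (n + 1).choose (j + 1) / (n + 1) * (j + 1) = n.choose j := by
  have h1 : (n + 1) ∣ (n + 1).choose (j + 1) :=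
    hp.dvd_choose_self (by omega) (by omega)
  obtain ⟨q, hq⟩ := h1
  have h2 := Nat.add_one_mul_choose_eq n j
  rw [hq] at h2
  rw [hq, Nat.mul_div_cancel_left q (by omega)]
  have h3 : (n + 1) * n.choose j = (n + 1) * (q * (j + 1)) := by rw [h2]; ring
  exact (Nat.eq_of_mul_eq_mul_left (by omega) h3).symm

theorem q2 (n j : ℕ) (hp : (n + 1).Prime) (hj : j < n) :
    (n + 1).choose (j + 1) / (n + 1) * (n - j) = n.choose (j + 1) := by
  have h1 : (n + 1) ∣ (n + 1).choose (j + 1) :=
    hp.dvd_choose_self (by omega) (by omega)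
  obtain ⟨q, hq⟩ := h1
  have h2 := Nat.choose_mul_succ_eq n (j + 1)
  rw [hq] at h2
  rw [hq, Nat.mul_div_cancel_left q (by omega)]
  have h4 : n + 1 - (j + 1) = n - j := by omega
  rw [h4] at h2
  have h3 : (n + 1) * n.choose (j + 1) = (n + 1) * (q * (n - j)) := by
    rw [mul_comm, h2]; ring
  exact (Nat.eq_of_mul_eq_mul_left (by omega) h3).symm

theorem key (n : ℕ) {L : Type} [Field L] (δ : Derivation ℤ L L) (hp : (n + 1).Prime) (x y : L) :
    (x + y) ^ n * δ (x + y) = x ^ n * δ x + y ^ n * δ y + δ (cw n x y) := by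
  have h1 : δ (cw n x y) = ∑ j ∈ range n, ((n.choose j : L) * (x ^ j * y ^ (n - j)) * δ x +
      (n.choose (j + 1) : L) * (x ^ (j + 1) * y ^ (n - (j + 1))) * δ y) := by
    rw [cw, map_sum]
    apply Finset.sum_congr rfl
    intro j hj
    rw [mem_range] at hj
    rw [← q1 n j hp hj, ← q2 n j hp hj]
    rw [Derivation.leibniz, Derivation.leibniz, Derivation.leibniz_pow, Derivation.leibniz_pow,
      Derivation.map_natCast]
    simp only [smul_eq_mul, mul_zero, add_zero, nsmul_eq_mul, Nat.add_sub_cancel]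
    have h2 : n - (j + 1) = n - j - 1 := by omega
    rw [h2]
    push_cast
    ring
  have h2 : (x + y) ^ n = ∑ j ∈ range n, (n.choose j : L) * (x ^ j * y ^ (n - j)) + x ^ n := by
    rw [add_pow, sum_range_succ]
    simp only [Nat.choose_self, Nat.sub_self, pow_zero, mul_one, Nat.cast_one]
    congr 1
    apply Finset.sum_congr rfl
    intro j _
    ring
  have h3 : (x + y) ^ n = ∑ j ∈ range n, (n.choose (j + 1) : L) *
      (x ^ (j + 1) * y ^ (n - (j + 1))) + y ^ n := by
    rw [add_pow, sum_range_succ']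
    simp only [Nat.choose_zero_right, Nat.sub_zero, pow_zero, mul_one, Nat.cast_one, one_mul]
    congr 1
    apply Finset.sum_congr rfl
    intro j _
    ring
  rw [h1, sum_add_distrib, ← sum_mul, ← sum_mul, map_add, mul_add]
  rw [eq_sub_of_add_eq h2.symm, eq_sub_of_add_eq h3.symm]
  ring

theorem proj_sum (p : ℕ) [Fact p.Prime] :
    ∑ i : ZMod p, (1 - (Polynomial.X - Polynomial.C i) ^ (p - 1) : Polynomial (ZMod p)) = 1 := by
  have hp : p.Prime := Fact.out
  have h2 := hp.two_le
  rw [← sub_eq_zero]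
  apply Polynomial.eq_zero_of_natDegree_lt_card_of_eval_eq_zero (f := (id : ZMod p → ZMod p))
    _ Function.injective_id
  · intro j
    simp only [id_eq, Polynomial.eval_sub, Polynomial.eval_finsetSum, Polynomial.eval_one,
      Polynomial.eval_pow, Polynomial.eval_X, Polynomial.eval_C]
    rw [Finset.sum_eq_single j]
    · rw [sub_self, zero_pow (by omega)]
      ring
    · intro i _ hi
      rw [ZMod.pow_card_sub_one_eq_one (sub_ne_zero.mpr hi.symm), sub_self]
    · intro h
      exact absurd (Finset.mem_univ _) h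
  · rw [ZMod.card]
    have h3 : (∑ i : ZMod p, (1 - (Polynomial.X - Polynomial.C i) ^ (p - 1) :
        Polynomial (ZMod p)) - 1).natDegree ≤ p - 1 := by
      apply le_trans (Polynomial.natDegree_sub_le _ _)
      rw [Polynomial.natDegree_one, max_eq_left (Nat.zero_le _)]
      apply Polynomial.natDegree_sum_le_of_forall_le
      intro i _
      apply le_trans (Polynomial.natDegree_sub_le _ _)
      rw [Polynomial.natDegree_one, max_eq_right (Nat.zero_le _)]
      apply le_trans Polynomial.natDegree_pow_le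
      rw [Polynomial.natDegree_X_sub_C, mul_one]
    omega

end DRH80

open DRH80 in
theorem drh_thm : S_DRH := by
  intro p L _ t Δ hp hchar _ hadd hmul _ hpow x
  have : Fact p.Prime := ⟨hp⟩
  let _ := ZMod.algebra L p
  obtain ⟨n, rfl⟩ : ∃ n, p = n + 1 := ⟨p - 1, by have := hp.two_le; omega⟩
  simp only [Nat.add_sub_cancel]
  let δ : Derivation ℤ L L := Derivation.mk' ((AddMonoidHom.mk' Δ hadd).toIntLinearMap)
    (by intro a b; exact hmul a b)
  have hδ : ∀ z, δ z = Δ z := fun _ => rfl
  have hzero : Δ 0 = 0 := by rw [← hδ, map_zero]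
  -- iterates are additive
  have hit : ∀ (m : ℕ) (a b : L), Δ^[m] (a + b) = Δ^[m] a + Δ^[m] b := by
    intro m
    induction m with
    | zero => intro a b; rfl
    | succ m ih =>
      intro a b
      rw [Function.iterate_succ_apply, hadd, ih, ← Function.iterate_succ_apply,
        ← Function.iterate_succ_apply]
  let T : L → L := fun z => (z ^ n * Δ z - Δ^[n] (z ^ n * Δ z)) - (Δ z) ^ (n + 1)
  have hT : ∀ a b, T (a + b) = T a + T b := by
    intro a b
    have h1 := key n δ hp a b
    rw [hδ, hδ, hδ, hδ] at h1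
    have h2 : Δ^[n] (Δ (cw n a b)) = Δ (cw n a b) := by
      rw [← Function.iterate_succ_apply]
      exact hpow _
    have h3 : (Δ (a + b)) ^ (n + 1) = (Δ a) ^ (n + 1) + (Δ b) ^ (n + 1) := by
      rw [hadd]
      exact add_pow_char _ _ _
    simp only [T]
    rw [h1, hit, hit, h2, h3]
    ring
  let TT : L →+ L := AddMonoidHom.mk' T hT
  -- eigenvectors
  have heig : ∀ (i : ZMod (n + 1)) (z : L), Δ z = (algebraMap (ZMod (n + 1)) L i) * z → T z = 0 := by
    intro i z hz
    set c := algebraMap (ZMod (n + 1)) L i with hc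
    have hcp : c ^ (n + 1) = c := by
      rw [hc, ← map_pow, ZMod.pow_card]
    have hn1 : ((n + 1 : ℕ) : L) = 0 := CharP.cast_eq_zero L (n + 1)
    have h1 : Δ (z ^ (n + 1)) = 0 := by
      rw [← hδ, Derivation.leibniz_pow]
      simp only [nsmul_eq_mul]
      rw [hn1, zero_mul]
    have hci : ∃ m : ℕ, c = (m : L) := by
      refine ⟨i.val, ?_⟩
      rw [hc]
      conv_lhs => rw [← ZMod.natCast_zmod_val i]
      rw [map_natCast]
    obtain ⟨m, hm⟩ := hci
    have hΔc : Δ c = 0 := by
      rw [hm, ← hδ, Derivation.map_natCast]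
    have h2 : z ^ n * Δ z = c * z ^ (n + 1) := by
      rw [hz]; ring
    have h3 : Δ (c * z ^ (n + 1)) = 0 := by
      rw [hmul, h1, hΔc, mul_zero, mul_zero, add_zero]
    have h4 : Δ^[n] (c * z ^ (n + 1)) = 0 := by
      obtain ⟨l, rfl⟩ : ∃ l, n = l + 1 := ⟨n - 1, by have := hp.two_le; omega⟩
      rw [Function.iterate_succ_apply, h3]
      clear h3 h2 h1 hz
      induction l with
      | zero => rfl
      | succ l _ =>
        exact Function.iterate_fixed hzero _
    simp only [T]
    rw [h2, h4, hz, mul_pow, hcp]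
    ring
  -- decomposition
  let D : Module.End (ZMod (n + 1)) L := AddMonoidHom.toZModLinearMap (n + 1)
    (AddMonoidHom.mk' Δ hadd)
  have hD : ∀ z, D z = Δ z := fun _ => rfl
  have hDpow : ∀ (m : ℕ) (z : L), (D ^ m) z = Δ^[m] z := by
    intro m z
    rw [Module.End.pow_apply]
    rfl
  let P : ZMod (n + 1) → Polynomial (ZMod (n + 1)) := fun i =>
    1 - (Polynomial.X - Polynomial.C i) ^ (n + 1 - 1)
  have hP : ∑ i, P i = 1 := proj_sum (n + 1)
  have hdec : x = ∑ i, (Polynomial.aeval D (P i)) x := by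
    rw [← LinearMap.sum_apply, ← map_sum, hP, map_one]
    rfl
  have heigP : ∀ i, Δ ((Polynomial.aeval D (P i)) x) =
      (algebraMap (ZMod (n + 1)) L i) * ((Polynomial.aeval D (P i)) x) := by
    intro i
    have h1 : (Polynomial.X - Polynomial.C i) * P i =
        Polynomial.X - Polynomial.X ^ (n + 1) := by
      simp only [P, Nat.add_sub_cancel]
      rw [mul_sub, mul_one, ← pow_succ', sub_pow_char, ← Polynomial.C_pow, ZMod.pow_card]
      ring
    have h2 := congrArg (fun Q => (Polynomial.aeval D Q) x) h1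
    simp only [map_mul, map_sub, Polynomial.aeval_X, Polynomial.aeval_C, map_pow] at h2
    rw [Module.End.mul_apply, LinearMap.sub_apply, LinearMap.sub_apply, hDpow, hD, hD, hpow,
      sub_self, Module.algebraMap_end_apply, Algebra.smul_def] at h2
    exact sub_eq_zero.mp h2
  have hTx : T x = 0 := by
    have h1 : TT x = ∑ i, TT ((Polynomial.aeval D (P i)) x) := by
      rw [← map_sum, ← hdec]
    have h2 : ∀ i, TT ((Polynomial.aeval D (P i)) x) = 0 := fun i => heig i _ (heigP i)
    rw [Finset.sum_eq_zero (fun i _ => h2 i)] at h1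
    exact h1
  exact sub_eq_zero.mp hTx

end Pool.CND
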